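import Pool.Agent.helper77.BND.SpecD

set_option autoImplicit false

namespace Pool.Agent.BND

open Pool.Agent.CZ Pool.Agent.PV

theorem FLS_zero (h : ℕ → ℕ) (u : List ℕ) : (fl h u 0).2 = 0 := by
  induction u with
  | nil => rfl
  | cons a u ih =>
    rw [fl]
    split
    · rfl
    · rw [Nat.zero_sub]
      exact ih

theorem FLS_lt (h : ℕ → ℕ) (a : ℕ) (u : List ℕ) (i : ℕ) (hi : i < h a) :
    fl h (a :: u) i = (a, i) := by
  rw [fl, if_pos hi]

theorem FLS_ge (h : ℕ → ℕ) (a : ℕ) (u : List ℕ) (i : ℕ) (hi : h a ≤ i) :
    fl h (a :: u) i = fl h u (i - h a) := by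
  rw [fl, if_neg (by omega)]

theorem FLS : FLS_stmt := by
  intro h u
  refine ⟨FLS_zero h u, ?_, ?_⟩
  · induction u with
    | nil =>
      intro i hi
      simp at hi
    | cons a u ih =>
      intro i hi
      rw [List.map_cons, List.sum_cons] at hi
      rcases lt_trichotomy (i + 1) (h a) with h1 | h1 | h1
      · rw [FLS_lt h a u i (by omega), FLS_lt h a u (i + 1) h1]
        refine ⟨fun _ => rfl, fun h2 => ?_, fun _ => rfl, fun h2 => ?_⟩
        · exact absurd (show i + 1 = h a from h2) (by omega)
        · exact absurd (show i + 1 = 0 from h2) (by omega)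
      · rw [FLS_lt h a u i (by omega), FLS_ge h a u (i + 1) (by omega)]
        have h3 : i + 1 - h a = 0 := by omega
        rw [h3]
        have h4 := FLS_zero h u
        refine ⟨fun h2 => ?_, fun _ => h4, fun h2 => ?_, fun _ => h1⟩
        · exact absurd (show i + 1 < h a from h2) (by omega)
        · omega
      · rw [FLS_ge h a u i (by omega), FLS_ge h a u (i + 1) (by omega)]
        have h3 : i + 1 - h a = (i - h a) + 1 := by omega
        rw [h3]
        exact ih (i - h a) (by omega)
  · induction u with
    | nil =>
      intro i hi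
      simp at hi
    | cons a u ih =>
      intro i hi
      rw [List.map_cons, List.sum_cons] at hi
      by_cases h1 : i < h a
      · rw [FLS_lt h a u i h1]
        show i + 1 = h a
        omega
      · rw [FLS_ge h a u i (by omega)]
        exact ih (i - h a) (by omega)

end Pool.Agent.BND
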